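import Pool.Agent.L7h96.GC.Gdc

/-! Project GC, part FNC: codes are fine. -/

set_option autoImplicit false

namespace Pool.Agent.L7h96.GC

open Set Function MeasureTheory FirstOrder FirstOrder.Language
open Pool.Agent.L7h66.UA (XS)
open Pool.Agent.L7h71.GB (FamG Gd Fine)
open Pool.Agent.L7h71.GC

variable {L : FirstOrder.Language.{0, 0}}

/-- the block of a top point is small -/
theorem block_small (S : L.Structure ℕ) {n : ℕ}
    (hn : ∀ x, ∃ y, G1 S y x ∧ TopP S y ∧ {z | G1 S y z ∧ G1 S z y}.encard ≤ n) {x : ℕ}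
    (hx : TopP S x) : {w | G1 S x w ∧ G1 S w x}.encard ≤ n := by
  obtain ⟨y, h1, h2, h3⟩ := hn x
  have h4 : G1 S x y := hx y h1
  refine le_trans (encard_le_encard ?_) h3
  rintro w ⟨hw1, hw2⟩
  exact ⟨G1_trans S h1 hw1, G1_trans S hw2 h4⟩

/-- the points of the block of a top point are top points -/
theorem block_top (S : L.Structure ℕ) {x w : ℕ} (hx : TopP S x) (h2 : G1 S w x) :
    TopP S w := by
  intro z hz
  exact G1_trans S h2 (hx z (G1_trans S hz h2))

/-- **FNC** -/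
theorem s_FNC (h : S_GDC) : S_FNC := by
  classical
  intro L hc E hE S ρ hD hP
  have hG := (h L hc E hE).2 S ρ
  refine ⟨?_, ?_, ?_⟩
  · intro b c hb hc'
    rw [hG] at hb hc' ⊢
    intro y hy w hw hw'
    rcases Finset.mem_union.1 hy with hy | hy
    · obtain ⟨z, hz, hzw⟩ := hb y hy w hw hw'
      exact ⟨z, Finset.mem_union_left _ hz, hzw⟩
    · obtain ⟨z, hz, hzw⟩ := hc' y hy w hw hw'
      exact ⟨z, Finset.mem_union_right _ hz, hzw⟩
  · intro b c hb hc' _
    rw [hG] at hb hc' ⊢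
    intro y hy w hw hw'
    obtain ⟨hyb, hyc⟩ := Finset.mem_inter.1 hy
    obtain ⟨z, hz, hzw⟩ := hb y hyb w hw hw'
    obtain ⟨z', hz', hzw'⟩ := hc' y hyc w hw hw'
    have hzz : z = z' := hP.1 (hzw.trans hzw'.symm)
    subst hzz
    exact ⟨z, Finset.mem_inter.2 ⟨hz, hz'⟩, hzw⟩
  · obtain ⟨n, hn⟩ := hD.bdd
    refine ⟨n, fun x => ?_⟩
    have hx : TopP S (ρ x) := (hP.2 (ρ x)).2 ⟨x, rfl⟩
    have hsm := block_small S hn hx
    have hfin : ({w | G1 S (ρ x) w ∧ G1 S w (ρ x)} : Set ℕ).Finite :=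
      finite_of_encard_le_coe hsm
    have hpre : (ρ ⁻¹' {w | G1 S (ρ x) w ∧ G1 S w (ρ x)}).Finite :=
      hfin.preimage hP.1.injOn
    refine ⟨hpre.toFinset, ?_, ?_, ?_⟩
    · rw [hG]
      intro y hy w hw hw'
      rw [Finite.mem_toFinset] at hy
      have h1 : G1 S (ρ x) w := G1_trans S hy.1 hw
      have h2 : G1 S w (ρ x) := G1_trans S hw' hy.2
      obtain ⟨i, hi⟩ := (hP.2 w).1 (block_top S hx h2)
      refine ⟨i, ?_, hi⟩
      rw [Finite.mem_toFinset]
      show G1 S (ρ x) (ρ i) ∧ G1 S (ρ i) (ρ x)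
      rw [hi]
      exact ⟨h1, h2⟩
    · rw [Finite.mem_toFinset]
      exact ⟨G1_refl S _, G1_refl S _⟩
    · have h1 : (hpre.toFinset.image ρ).card = hpre.toFinset.card :=
        Finset.card_image_of_injective _ hP.1
      have h2 : ((hpre.toFinset.image ρ : Finset ℕ) : Set ℕ) ⊆
          {w | G1 S (ρ x) w ∧ G1 S w (ρ x)} := by
        intro w hw
        rw [Finset.mem_coe, Finset.mem_image] at hw
        obtain ⟨i, hi, rfl⟩ := hw
        exact (Finite.mem_toFinset hpre).1 hi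
      have h3 := (encard_le_encard h2).trans hsm
      rw [encard_coe_eq_coe_finsetCard, h1] at h3
      exact_mod_cast h3

end Pool.Agent.L7h96.GC
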