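import Pool.Agent.L7h71.GC.Stm

/-! Project GC, parts GDC and FNC: good sets of codes. -/

set_option autoImplicit false

namespace Pool.Agent.L7h96.GC

open Set Function MeasureTheory FirstOrder FirstOrder.Language
open Pool.Agent.L7h66.UA (XS)
open Pool.Agent.L7h71.GB (FamG Gd Fine)
open Pool.Agent.L7h71.GC

variable {L : FirstOrder.Language.{0, 0}}

theorem tr_subst (S : L.Structure ℕ) (v : ℕ → ℕ) (t : L.Term ℕ) (f : ℕ → L.Term ℕ) :
    tr S v (t.subst f) = tr S (fun i => tr S v (f i)) t := by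
  letI := S
  unfold tr
  exact Term.realize_subst

theorem tr_var (S : L.Structure ℕ) (v : ℕ → ℕ) (i : ℕ) : tr S v (Term.var i) = v i := rfl

theorem fr_equal (S : L.Structure ℕ) (v : ℕ → ℕ) (t t' : L.Term ℕ) :
    fr S v (t.equal t') ↔ tr S v t = tr S v t' := by
  letI := S
  unfold tr fr
  exact Formula.realize_equal

theorem equal_qf (t t' : L.Term ℕ) : (t.equal t').IsQF :=
  (BoundedFormula.IsAtomic.equal _ _).isQF

theorem fr_bak (S : L.Structure ℕ) (v : ℕ → ℕ) (t t' : L.Term ℕ) :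
    fr S v (bak t t') ↔ tr S (fun _ => tr S v t) t' = v 0 := by
  unfold bak
  rw [fr_equal, tr_subst, tr_var]

theorem fr_fwd (S : L.Structure ℕ) (v : ℕ → ℕ) (t : L.Term ℕ) :
    fr S v (fwd t) ↔ tr S (fun _ => v 0) t = v 1 := by
  unfold fwd
  rw [fr_equal, tr_subst, tr_var]
  rfl

theorem G1_refl (S : L.Structure ℕ) (x : ℕ) : G1 S x x := ⟨Term.var 0, rfl⟩

theorem G1_trans (S : L.Structure ℕ) {x y z : ℕ} (h1 : G1 S x y) (h2 : G1 S y z) : G1 S x z := by
  obtain ⟨t, ht⟩ := h1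
  obtain ⟨t', ht'⟩ := h2
  refine ⟨t'.subst fun _ => t, ?_⟩
  rw [tr_subst, ht, ht']

theorem cod_true (E : ℕ → L.Formula ℕ) (S : L.Structure ℕ) (ρ : ℕ → ℕ) (m : ℕ)
    (x : Fin (m + 1) → ℕ) (k : ℕ) :
    cod E S ρ m x k = true ↔ fr S (fun s => ρ (tu x s)) (E k) :=
  @decide_eq_true_iff (fr S (fun s => ρ (tu x s)) (E k)) (Classical.propDecidable _)

/-- membership in `GG` of a structure induced by a code -/
theorem mem_GG {E : ℕ → L.Formula ℕ} (hE : Enum E) (S : L.Structure ℕ) (ρ : ℕ → ℕ) (n : ℕ)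
    (u : Fin n → ℕ) : (fun i (t : Fin (i + 1) → Fin n) => cod E S ρ i (u ∘ t)) ∈ GG E n ↔
      ∀ y : Fin n, ∀ w, G1 S (ρ (u y)) w → G1 S w (ρ (u y)) → ∃ z : Fin n, ρ (u z) = w := by
  have h0 : ∀ (y : Fin n) (t t' : L.Term ℕ),
      cod E S ρ 0 (u ∘ fun _ => y) (ix E (bak t t')) = true ↔
        tr S (fun _ => tr S (fun _ => ρ (u y)) t) t' = ρ (u y) := by
    intro y t t'
    refine (cod_true E S ρ 0 _ _).trans ?_
    rw [ix_spec hE (show (bak t t').IsQF from equal_qf _ _)]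
    exact fr_bak S _ t t'
  have h1 : ∀ (y z : Fin n) (t : L.Term ℕ),
      cod E S ρ 1 (u ∘ ![y, z]) (ix E (fwd t)) = true ↔
        tr S (fun _ => ρ (u y)) t = ρ (u z) := by
    intro y z t
    refine (cod_true E S ρ 1 _ _).trans ?_
    rw [ix_spec hE (show (fwd t).IsQF from equal_qf _ _)]
    exact fr_fwd S _ t
  unfold GG
  rw [mem_ofPred_eq]
  constructor
  · intro h y w hw hw'
    obtain ⟨t, ht⟩ := hw
    obtain ⟨t', ht'⟩ := hw'
    obtain ⟨z, hz⟩ := h y t t' ((h0 y t t').2 (by rw [ht, ht']))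
    refine ⟨z, ?_⟩
    have h2 := (h1 y z t).1 hz
    rw [← h2, ht]
  · intro h y t t' ht
    have h2 := (h0 y t t').1 ht
    obtain ⟨z, hz⟩ := h y (tr S (fun _ => ρ (u y)) t) ⟨t, rfl⟩ ⟨t', h2⟩
    exact ⟨z, (h1 y z t).2 hz.symm⟩

theorem gd_iff {E : ℕ → L.Formula ℕ} (hE : Enum E) (S : L.Structure ℕ) (ρ : ℕ → ℕ)
    (b : Finset ℕ) : Gd (GG E) (cod E S ρ) b ↔
      ∀ y ∈ b, ∀ w, G1 S (ρ y) w → G1 S w (ρ y) → ∃ z ∈ b, ρ z = w := by
  classical
  unfold Gd
  constructor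
  · rintro ⟨u, hu, hub, hG⟩ y hy w hw hw'
    have hG' := (mem_GG hE S ρ b.card u).1 hG
    have hon : Finset.univ.image u = b := by
      apply Finset.eq_of_subset_of_card_le
      · intro x hx
        obtain ⟨j, -, rfl⟩ := Finset.mem_image.1 hx
        exact hub j
      · rw [Finset.card_image_of_injective _ hu, Finset.card_univ, Fintype.card_fin]
    rw [← hon] at hy
    obtain ⟨j, -, rfl⟩ := Finset.mem_image.1 hy
    obtain ⟨z, hz⟩ := hG' j w hw hw'
    exact ⟨u z, hub z, hz⟩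
  · intro h
    refine ⟨fun j => (b.equivFin.symm j : ℕ), ?_, fun j => (b.equivFin.symm j).2, ?_⟩
    · intro i j hij
      exact b.equivFin.symm.injective (Subtype.ext hij)
    · refine (mem_GG hE S ρ b.card _).2 ?_
      intro y w hw hw'
      obtain ⟨z, hz, hzw⟩ := h _ (b.equivFin.symm y).2 w hw hw'
      refine ⟨b.equivFin ⟨z, hz⟩, ?_⟩
      simp only [Equiv.symm_apply_apply]
      exact hzw

theorem meas_GG (hc : Countable L.Symbols) (E : ℕ → L.Formula ℕ) (n : ℕ) :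
    MeasurableSet (GG E n) := by
  haveI : Countable (L.Term ℕ) := inferInstance
  have h0 : ∀ (i : ℕ) (x : Fin (i + 1) → Fin n) (k : ℕ),
      MeasurableSet {s : ∀ i, (Fin (i + 1) → Fin n) → (ℕ → Bool) | s i x k = true} := by
    intro i x k
    have hm : Measurable fun s : ∀ i, (Fin (i + 1) → Fin n) → (ℕ → Bool) => s i x k :=
      (measurable_pi_apply k).comp ((measurable_pi_apply x).comp (measurable_pi_apply i))
    exact hm (measurableSet_singleton true)
  have h1 : GG E n = ⋂ (y : Fin n) (t : L.Term ℕ) (t' : L.Term ℕ),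
      ({s : ∀ i, (Fin (i + 1) → Fin n) → (ℕ → Bool) |
        s 0 (fun _ => y) (ix E (bak t t')) = true}ᶜ ∪
      ⋃ z : Fin n, {s | s 1 ![y, z] (ix E (fwd t)) = true}) := by
    ext s
    unfold GG
    simp only [mem_ofPred_eq, mem_iInter, mem_union, mem_compl_iff, mem_iUnion]
    refine forall_congr' fun y => forall_congr' fun t => forall_congr' fun t' => ?_
    exact imp_iff_not_or
  rw [h1]
  exact MeasurableSet.iInter fun y => MeasurableSet.iInter fun t => MeasurableSet.iInter fun t' =>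
    (h0 0 _ _).compl.union (MeasurableSet.iUnion fun z => h0 1 _ _)

/-- **GDC** -/
theorem s_GDC : S_GDC := fun _ hc E hE =>
  ⟨fun n => meas_GG hc E n, fun S ρ b => gd_iff hE S ρ b⟩

end Pool.Agent.L7h96.GC
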